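import Mathlib

/-!
Arrays `α j h` (`j < S`, `h ≤ N`) of rational numbers, standing for the functions
`∑ α j h (iθ)^j / j! * exp (ihθ)`, and the convolution step.
-/

namespace Pool.Agent.Helper66.PI

open Finset Polynomial
open scoped Nat

/-- The coefficient of `X ^ h` in `(X - 1) ^ n`. -/
def bc (n h : ℕ) : ℤ := (-1) ^ (n - h) * (n.choose h : ℤ)

theorem bc_of_lt {n h : ℕ} (hh : n < h) : bc n h = 0 := by
  simp [bc, Nat.choose_eq_zero_of_lt hh]

theorem bc_ne_zero {n h : ℕ} (hh : h ≤ n) : bc n h ≠ 0 := by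
  have := (Nat.choose_pos hh).ne'
  simp [bc, this]

theorem abs_bc (n h : ℕ) : |bc n h| = n.choose h := by
  simp [bc, abs_mul, abs_pow]

theorem sum_abs_bc (n : ℕ) : ∑ h ∈ range (n + 1), |(bc n h : ℝ)| = 2 ^ n := by
  have h1 : ∀ h ∈ range (n + 1), |(bc n h : ℝ)| = (n.choose h : ℝ) := by
    intro h _
    have := abs_bc n h
    exact_mod_cast this
  rw [sum_congr rfl h1]
  exact_mod_cast Nat.sum_range_choose n

theorem sum_bc_pow {R : Type*} [CommRing R] (n : ℕ) (z : R) :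
    ∑ h ∈ range (n + 1), (bc n h : R) * z ^ h = (z - 1) ^ n := by
  rw [sub_eq_add_neg, add_pow]
  apply sum_congr rfl
  intro h _
  simp only [bc, Int.cast_mul, Int.cast_pow, Int.cast_neg, Int.cast_one, Int.cast_natCast]
  ring

theorem sum_bc_mul_pow {n q : ℕ} (hq : q < n) :
    ∑ h ∈ range (n + 1), (bc n h : ℚ) * (h : ℚ) ^ q = 0 := by
  have h1 := fwdDiff_iter_eq_sum_shift (M := ℚ) (G := ℚ) 1 (fun r => r ^ q) n 0
  rw [fwdDiff_iter_pow_eq_zero_of_lt hq] at h1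
  simp only [Pi.zero_apply] at h1
  rw [h1]
  apply sum_congr rfl
  intro h _
  simp [bc]

theorem sum_bc_ext {R : Type*} [CommRing R] {n N : ℕ} (hn : n ≤ N) (f : ℕ → R) :
    ∑ h ∈ range (N + 1), (bc n h : R) * f h = ∑ h ∈ range (n + 1), (bc n h : R) * f h := by
  symm
  apply sum_subset
  · intro h hh
    rw [mem_range] at hh ⊢
    omega
  · intro h _ hh
    rw [mem_range, not_lt] at hh
    rw [bc_of_lt (by omega)]
    simp

theorem sum_bc_pow_self (n : ℕ) :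
    ∑ h ∈ range (n + 1), (bc n h : ℚ) * (h : ℚ) ^ n = (n ! : ℚ) := by
  have h1 := fwdDiff_iter_eq_sum_shift (M := ℚ) (G := ℚ) 1 (fun r => r ^ n) n 0
  rw [fwdDiff_iter_eq_factorial] at h1
  have h2 : ((n ! : ℕ) : ℚ → ℚ) 0 = (n ! : ℚ) := rfl
  rw [h2] at h1
  rw [h1]
  apply sum_congr rfl
  intro h _
  simp [bc]

theorem sum_abs_bc_le {n N : ℕ} (hn : n ≤ N) : ∑ h ∈ range (N + 1), |(bc n h : ℝ)| ≤ 2 ^ N := by
  have h1 : ∑ h ∈ range (N + 1), |(bc n h : ℝ)| = ∑ h ∈ range (n + 1), |(bc n h : ℝ)| := by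
    symm
    apply sum_subset
    · intro h hh
      rw [mem_range] at hh ⊢
      omega
    · intro h _ hh
      rw [mem_range, not_lt] at hh
      rw [bc_of_lt (by omega)]
      simp
  rw [h1, sum_abs_bc]
  exact pow_le_pow_right₀ (by norm_num) hn

/-- Arrays supported on `j < s`, `h ≤ N`. -/
def Supp (s N : ℕ) (α : ℕ → ℕ → ℚ) : Prop := ∀ j h, s ≤ j ∨ N < h → α j h = 0

/-- Division by `h - h' + (shift down)`. -/
def gam (S : ℕ) (α : ℕ → ℕ → ℚ) (h' j h : ℕ) : ℚ :=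
  ∑ l ∈ range S, (-1) ^ l * α (j + l) h / ((h : ℚ) - h') ^ (l + 1)

/-- The array of the integral against `exp (i h' (θ - u))`. -/
def bet (S N : ℕ) (α : ℕ → ℕ → ℚ) (h' j h : ℕ) : ℚ :=
  if h = h' then
    (if j = 0 then -∑ k ∈ (range (N + 1)).erase h', gam S α h' 0 k else α (j - 1) h')
  else gam S α h' j h

/-- The array of the convolution with `(exp (i (θ - u)) - 1) ^ n`. -/
def step (S N n : ℕ) (α : ℕ → ℕ → ℚ) (j h : ℕ) : ℚ :=
  ∑ h' ∈ range (N + 1), (bc n h' : ℚ) * bet S N α h' j h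

theorem gam_rec {S : ℕ} {α : ℕ → ℕ → ℚ} {h' j h : ℕ} (hh : h ≠ h')
    (hα : α (j + S) h = 0) :
    ((h : ℚ) - h') * gam S α h' j h + gam S α h' (j + 1) h = α j h := by
  have hne : ((h : ℚ) - h') ≠ 0 := by
    intro h0
    apply hh
    have : (h : ℚ) = h' := by linarith
    exact_mod_cast this
  set δ : ℚ := (h : ℚ) - h' with hδ
  have h1 : δ * gam S α h' j h = ∑ l ∈ range S, (-1) ^ l * α (j + l) h / δ ^ l := by
    rw [gam, mul_sum]
    apply sum_congr rfl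
    intro l _
    rw [← hδ, pow_succ]
    field_simp
  have h2 : gam S α h' (j + 1) h = -∑ l ∈ range S, (-1) ^ (l + 1) * α (j + (l + 1)) h / δ ^ (l + 1) := by
    rw [gam, ← sum_neg_distrib]
    apply sum_congr rfl
    intro l _
    rw [← hδ, show j + 1 + l = j + (l + 1) by ring, pow_succ]
    ring
  rw [h1, h2]
  have h3 := sum_range_succ (fun l => (-1) ^ l * α (j + l) h / δ ^ l) S
  have h4 := sum_range_succ' (fun l => (-1) ^ l * α (j + l) h / δ ^ l) S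
  rw [h3] at h4
  simp only [hα, mul_zero, zero_div, add_zero, pow_zero, one_mul, div_one] at h4
  linarith

theorem gam_eq_zero_of_le {s S N : ℕ} {α : ℕ → ℕ → ℚ} (hα : Supp s N α) {h' j h : ℕ}
    (hj : s ≤ j) : gam S α h' j h = 0 := by
  rw [gam]
  apply sum_eq_zero
  intro l _
  rw [hα (j + l) h (Or.inl (by omega))]
  simp

theorem gam_eq_zero_of_lt {s S N : ℕ} {α : ℕ → ℕ → ℚ} (hα : Supp s N α) {h' j h : ℕ}
    (hh : N < h) : gam S α h' j h = 0 := by
  rw [gam]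
  apply sum_eq_zero
  intro l _
  rw [hα (j + l) h (Or.inr hh)]
  simp

theorem bet_rec {s S N : ℕ} {α : ℕ → ℕ → ℚ} (hα : Supp s N α) (hs : s ≤ S) (h' j h : ℕ) :
    ((h : ℚ) - h') * bet S N α h' j h + bet S N α h' (j + 1) h = α j h := by
  by_cases hh : h = h'
  · subst hh
    simp [bet]
  · simp only [bet, if_neg hh]
    exact gam_rec hh (hα _ _ (Or.inl (by omega)))

theorem bet_sum {S N : ℕ} {α : ℕ → ℕ → ℚ} {h' : ℕ} (hh : h' ≤ N) :
    ∑ h ∈ range (N + 1), bet S N α h' 0 h = 0 := by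
  rw [← add_sum_erase _ _ (mem_range.mpr (Nat.lt_succ_of_le hh))]
  have h1 : bet S N α h' 0 h' = -∑ k ∈ (range (N + 1)).erase h', gam S α h' 0 k := by
    simp [bet]
  have h2 : ∑ h ∈ (range (N + 1)).erase h', bet S N α h' 0 h =
      ∑ k ∈ (range (N + 1)).erase h', gam S α h' 0 k := by
    apply sum_congr rfl
    intro k hk
    simp [bet, ne_of_mem_erase hk]
  rw [h1, h2]
  ring

theorem bet_supp {s S N : ℕ} {α : ℕ → ℕ → ℚ} (hα : Supp s N α) {h' : ℕ} (hh' : h' ≤ N) :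
    Supp (s + 1) N (bet S N α h') := by
  intro j h hjh
  by_cases hh : h = h'
  · subst hh
    rcases hjh with hj | hN
    · have hj0 : j ≠ 0 := by omega
      simp only [bet, if_true, if_neg hj0]
      exact hα _ _ (Or.inl (by omega))
    · omega
  · simp only [bet, if_neg hh]
    rcases hjh with hj | hN
    · exact gam_eq_zero_of_le hα (by omega)
    · exact gam_eq_zero_of_lt hα hN

theorem step_supp {s S N n : ℕ} {α : ℕ → ℕ → ℚ} (hα : Supp s N α) :
    Supp (s + 1) N (step S N n α) := by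
  intro j h hjh
  rw [step]
  apply sum_eq_zero
  intro h' hh'
  rw [bet_supp hα (Nat.lt_succ_iff.mp (mem_range.mp hh')) j h hjh, mul_zero]

/-- The ring of integers inside `ℚ`. -/
abbrev ZZ : Subring ℚ := (Int.castRingHom ℚ).range

theorem mem_ZZ {x : ℚ} : x ∈ ZZ ↔ ∃ z : ℤ, (z : ℚ) = x := Iff.rfl

theorem intCast_mem_ZZ (z : ℤ) : (z : ℚ) ∈ ZZ := ⟨z, rfl⟩

theorem natCast_mem_ZZ (z : ℕ) : (z : ℚ) ∈ ZZ := ⟨z, by simp⟩

theorem gam_int {s S N d : ℕ} {α : ℕ → ℕ → ℚ} (hα : Supp s N α)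
    (hd : ∀ i : ℕ, 1 ≤ i → i ≤ N → i ∣ d)
    (hint : ∀ j h, j < s → (d : ℚ) ^ (s - 1 - j) * α j h ∈ ZZ)
    {h' : ℕ} (hh' : h' ≤ N) (j h : ℕ) (hh : h ≠ h') (hhN : h ≤ N) :
    (d : ℚ) ^ (s - j) * gam S α h' j h ∈ ZZ := by
  rw [gam, mul_sum]
  apply sum_mem
  intro l _
  by_cases hjl : s ≤ j + l
  · rw [hα _ _ (Or.inl hjl)]
    simp
  push Not at hjl
  have hne : ((h : ℚ) - h') ≠ 0 := by
    intro h0
    apply hh
    have : (h : ℚ) = h' := by linarith
    exact_mod_cast this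
  have hdiv : (d : ℚ) / ((h : ℚ) - h') ∈ ZZ := by
    rcases lt_or_gt_of_ne hh with hlt | hgt
    · obtain ⟨e, he⟩ := hd (h' - h) (by omega) (by omega)
      refine ⟨-(e : ℤ), ?_⟩
      have h1 : (d : ℚ) = ((h' : ℚ) - h) * e := by
        rw [he]; push_cast [Nat.cast_sub hlt.le]; ring
      rw [eq_div_iff hne, h1]
      simp only [eq_intCast, Int.cast_neg, Int.cast_natCast]
      ring
    · obtain ⟨e, he⟩ := hd (h - h') (by omega) (by omega)
      refine ⟨(e : ℤ), ?_⟩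
      have h1 : (d : ℚ) = ((h : ℚ) - h') * e := by
        rw [he]; push_cast [Nat.cast_sub hgt.le]; ring
      rw [eq_div_iff hne, h1]
      simp only [eq_intCast, Int.cast_natCast]
      ring
  have e1 : (d : ℚ) ^ (s - j) * ((-1) ^ l * α (j + l) h / ((h : ℚ) - h') ^ (l + 1)) =
      (-1) ^ l * ((d : ℚ) / ((h : ℚ) - h')) ^ (l + 1) * ((d : ℚ) ^ (s - 1 - (j + l)) * α (j + l) h) := by
    have e2 : s - j = (l + 1) + (s - 1 - (j + l)) := by omega
    rw [e2, pow_add, div_pow]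
    field_simp
  rw [e1]
  apply ZZ.mul_mem
  · apply ZZ.mul_mem
    · exact ZZ.pow_mem (ZZ.neg_mem ZZ.one_mem) _
    · exact ZZ.pow_mem hdiv _
  · exact hint _ _ hjl

theorem step_int {s S N n d : ℕ} {α : ℕ → ℕ → ℚ} (hα : Supp s N α)
    (hd : ∀ i : ℕ, 1 ≤ i → i ≤ N → i ∣ d)
    (hint : ∀ j h, j < s → (d : ℚ) ^ (s - 1 - j) * α j h ∈ ZZ) (j h : ℕ) (hj : j < s + 1) :
    (d : ℚ) ^ (s + 1 - 1 - j) * step S N n α j h ∈ ZZ := by
  by_cases hhN : N < h
  · rw [step_supp hα j h (Or.inr hhN), mul_zero]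
    exact ZZ.zero_mem
  push Not at hhN
  rw [step, mul_sum]
  apply sum_mem
  intro h' hh'
  have hh'N : h' ≤ N := Nat.lt_succ_iff.mp (mem_range.mp hh')
  rw [mul_left_comm]
  apply ZZ.mul_mem (intCast_mem_ZZ _)
  rw [Nat.add_sub_cancel]
  by_cases hh : h = h'
  · subst hh
    by_cases hj0 : j = 0
    · subst hj0
      simp only [bet, if_true]
      rw [mul_neg, mul_sum]
      apply ZZ.neg_mem
      apply sum_mem
      intro k hk
      exact gam_int hα hd hint hh'N 0 k (ne_of_mem_erase hk)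
        (Nat.lt_succ_iff.mp (mem_range.mp (mem_of_mem_erase hk)))
    · simp only [bet, if_true, if_neg hj0]
      have := hint (j - 1) h (by omega)
      rwa [show s - 1 - (j - 1) = s - j by omega] at this
  · simp only [bet, if_neg hh]
    exact gam_int hα hd hint hh'N j h hh hhN

theorem gam_bound {S : ℕ} {α : ℕ → ℕ → ℚ} {M : ℝ} (hM : ∀ j h, |(α j h : ℝ)| ≤ M)
    {h' : ℕ} (j h : ℕ) (hh : h ≠ h') :
    |(gam S α h' j h : ℝ)| ≤ S * M := by
  have hM0 : 0 ≤ M := (abs_nonneg _).trans (hM 0 0)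
  rw [gam]
  push_cast
  refine (abs_sum_le_sum_abs _ _).trans ?_
  have : ∀ l ∈ range S, |(-1 : ℝ) ^ l * (α (j + l) h : ℝ) / ((h : ℝ) - h') ^ (l + 1)| ≤ M := by
    intro l _
    rw [abs_div, abs_mul, abs_pow, abs_neg, abs_one, one_pow, one_mul, abs_pow]
    have h1 : (1 : ℝ) ≤ |(h : ℝ) - h'| := by
      have h2 : (1 : ℤ) ≤ |(h : ℤ) - h'| := Int.one_le_abs (by
        intro h0; apply hh; omega)
      exact_mod_cast h2
    have h2 : (1 : ℝ) ≤ |(h : ℝ) - h'| ^ (l + 1) := one_le_pow₀ h1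
    rw [div_le_iff₀ (by linarith)]
    calc |(α (j + l) h : ℝ)| ≤ M := hM _ _
      _ ≤ M * |(h : ℝ) - h'| ^ (l + 1) := le_mul_of_one_le_right hM0 h2
  refine (sum_le_sum this).trans ?_
  simp

theorem bet_bound {S N : ℕ} {α : ℕ → ℕ → ℚ} {M : ℝ} (hM : ∀ j h, |(α j h : ℝ)| ≤ M)
    (hS : 1 ≤ S) (h' j h : ℕ) :
    |(bet S N α h' j h : ℝ)| ≤ (N + 1) * (S * M) := by
  have hM0 : 0 ≤ M := (abs_nonneg _).trans (hM 0 0)
  have hS' : (1 : ℝ) ≤ S := by exact_mod_cast hS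
  have hSM : M ≤ S * M := le_mul_of_one_le_left hM0 hS'
  have hN : (S : ℝ) * M ≤ (N + 1) * (S * M) :=
    le_mul_of_one_le_left (by positivity) (by linarith [Nat.cast_nonneg (α := ℝ) N])
  by_cases hh : h = h'
  · subst hh
    by_cases hj0 : j = 0
    · subst hj0
      simp only [bet, if_true]
      push_cast
      rw [abs_neg]
      refine (abs_sum_le_sum_abs _ _).trans ?_
      refine (sum_le_sum (g := fun _ => (S : ℝ) * M) ?_).trans ?_
      · intro k hk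
        exact gam_bound hM 0 k (ne_of_mem_erase hk)
      · rw [sum_const, nsmul_eq_mul]
        apply mul_le_mul_of_nonneg_right _ (by positivity)
        have := card_erase_le (s := range (N + 1)) (a := h)
        rw [card_range] at this
        exact_mod_cast this
    · simp only [bet, if_true, if_neg hj0]
      exact (hM _ _).trans (hSM.trans hN)
  · simp only [bet, if_neg hh]
    exact (gam_bound hM j h hh).trans hN

theorem step_bound {S N n : ℕ} {α : ℕ → ℕ → ℚ} {M : ℝ} (hM : ∀ j h, |(α j h : ℝ)| ≤ M)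
    (hS : 1 ≤ S) (hn : n ≤ N) (j h : ℕ) :
    |(step S N n α j h : ℝ)| ≤ 2 ^ N * ((N + 1) * (S * M)) := by
  have hM0 : 0 ≤ M := (abs_nonneg _).trans (hM 0 0)
  rw [step]
  push_cast
  refine (abs_sum_le_sum_abs _ _).trans ?_
  refine le_trans ?_ (mul_le_mul_of_nonneg_right (sum_abs_bc_le hn) (by positivity))
  rw [sum_mul]
  apply sum_le_sum
  intro h' _
  rw [abs_mul]
  exact mul_le_mul_of_nonneg_left (bet_bound hM hS h' j h) (abs_nonneg _)

/-! ### The functional -/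

/-- `Q ↦ ∑ α j h (coefficient of (X - h) ^ j in Q)`. -/
noncomputable def mu (S N : ℕ) (α : ℕ → ℕ → ℚ) (Q : ℚ[X]) : ℚ :=
  ∑ j ∈ range S, ∑ h ∈ range (N + 1), α j h * (taylor (h : ℚ) Q).coeff j

theorem mu_sum {ι : Type*} (S N : ℕ) (t : Finset ι) (c : ι → ℚ) (β : ι → ℕ → ℕ → ℚ) (Q : ℚ[X]) :
    mu S N (fun j h => ∑ i ∈ t, c i * β i j h) Q = ∑ i ∈ t, c i * mu S N (β i) Q := by
  simp only [mu]
  have h1 : ∀ i ∈ t, c i * ∑ j ∈ range S, ∑ h ∈ range (N + 1), β i j h * (taylor (h : ℚ) Q).coeff j =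
      ∑ j ∈ range S, ∑ h ∈ range (N + 1), c i * β i j h * (taylor (h : ℚ) Q).coeff j := by
    intro i _
    rw [mul_sum]
    apply sum_congr rfl
    intro j _
    rw [mul_sum]
    apply sum_congr rfl
    intro h _
    ring
  rw [sum_congr rfl h1, sum_comm (s := t)]
  apply sum_congr rfl
  intro j _
  rw [sum_comm (s := t)]
  apply sum_congr rfl
  intro h _
  rw [sum_mul]

theorem mu_add (S N : ℕ) (α : ℕ → ℕ → ℚ) (P Q : ℚ[X]) :
    mu S N α (P + Q) = mu S N α P + mu S N α Q := by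
  simp only [mu, map_add, coeff_add, mul_add, sum_add_distrib]

theorem mu_smul (S N : ℕ) (α : ℕ → ℕ → ℚ) (c : ℚ) (Q : ℚ[X]) :
    mu S N α (c • Q) = c * mu S N α Q := by
  simp only [mu, map_smul, coeff_smul, smul_eq_mul, mul_sum]
  apply sum_congr rfl
  intro j _
  apply sum_congr rfl
  intro h _
  ring

/-- The functional as a linear map. -/
noncomputable def muL (S N : ℕ) (α : ℕ → ℕ → ℚ) : ℚ[X] →ₗ[ℚ] ℚ where
  toFun := mu S N α
  map_add' := mu_add S N α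
  map_smul' := mu_smul S N α

theorem mu_step_aux {s S N : ℕ} {α : ℕ → ℕ → ℚ} (hα : Supp s N α) (hs : s + 1 ≤ S) (h' : ℕ)
    (hh' : h' ≤ N) (Q : ℚ[X]) :
    mu S N (bet S N α h') ((X - C (h' : ℚ)) * Q) = mu S N α Q := by
  obtain ⟨S, rfl⟩ : ∃ S', S = S' + 1 := ⟨S - 1, by omega⟩
  have hb := bet_supp (S := S + 1) hα hh'
  have h1 : ∀ j h, (taylor (h : ℚ) ((X - C (h' : ℚ)) * Q)).coeff (j + 1) =
      ((h : ℚ) - h') * (taylor (h : ℚ) Q).coeff (j + 1) + (taylor (h : ℚ) Q).coeff j := by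
    intro j h
    rw [taylor_mul, map_sub, taylor_X, taylor_C, add_sub_assoc, ← C_sub, add_mul, coeff_add,
      coeff_X_mul, coeff_C_mul]
    ring
  have h0 : ∀ h : ℕ, (taylor (h : ℚ) ((X - C (h' : ℚ)) * Q)).coeff 0 =
      ((h : ℚ) - h') * (taylor (h : ℚ) Q).coeff 0 := by
    intro h
    rw [taylor_mul, map_sub, taylor_X, taylor_C, add_sub_assoc, ← C_sub, mul_coeff_zero, coeff_add,
      coeff_X_zero, coeff_C_zero, zero_add]
  rw [mu, mu, sum_comm, sum_comm (s := range (S + 1))]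
  apply sum_congr rfl
  intro h _
  rw [sum_range_succ', h0]
  have e1 : ∀ j ∈ range S, bet (S + 1) N α h' (j + 1) h *
      (taylor (h : ℚ) ((X - C (h' : ℚ)) * Q)).coeff (j + 1) =
      bet (S + 1) N α h' (j + 1) h * (((h : ℚ) - h') * (taylor (h : ℚ) Q).coeff (j + 1)) +
      bet (S + 1) N α h' (j + 1) h * (taylor (h : ℚ) Q).coeff j := by
    intro j _
    rw [h1]; ring
  rw [sum_congr rfl e1, sum_add_distrib]
  have e2 := sum_range_succ' (fun j => bet (S + 1) N α h' j h *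
    (((h : ℚ) - h') * (taylor (h : ℚ) Q).coeff j)) S
  have e3 : ∑ j ∈ range (S + 1), bet (S + 1) N α h' (j + 1) h * (taylor (h : ℚ) Q).coeff j =
      ∑ j ∈ range S, bet (S + 1) N α h' (j + 1) h * (taylor (h : ℚ) Q).coeff j := by
    rw [sum_range_succ, hb (S + 1) h (Or.inl hs), zero_mul, add_zero]
  rw [← e3, add_right_comm]
  rw [← e2, ← sum_add_distrib]
  apply sum_congr rfl
  intro j _
  rw [← bet_rec hα (by omega : s ≤ S + 1) h' j h]
  ring

theorem mu_one {S N : ℕ} (hS : 1 ≤ S) (α : ℕ → ℕ → ℚ) :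
    mu S N α 1 = ∑ h ∈ range (N + 1), α 0 h := by
  rw [mu, sum_comm]
  apply sum_congr rfl
  intro h _
  rw [sum_eq_single_of_mem 0 (mem_range.mpr hS)]
  · simp
  · intro j _ hj
    rw [taylor_one, coeff_C_of_ne_zero hj, mul_zero]

theorem mu_bet_pow {s S N : ℕ} {α : ℕ → ℕ → ℚ} (hα : Supp s N α) (hs : s + 1 ≤ S) (h' : ℕ)
    (hh' : h' ≤ N) (m : ℕ) :
    mu S N (bet S N α h') (X ^ m) =
      ∑ p ∈ range m, mu S N α (X ^ p) * (h' : ℚ) ^ (m - 1 - p) := by
  have h1 : (X : ℚ[X]) ^ m = (X - C (h' : ℚ)) * (∑ p ∈ range m, X ^ p * C (h' : ℚ) ^ (m - 1 - p)) +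
      ((h' : ℚ) ^ m) • (1 : ℚ[X]) := by
    rw [mul_comm, (Commute.all _ _).geom_sum₂_mul, smul_eq_C_mul, C_pow]
    ring
  rw [h1, mu_add, mu_smul, mu_one (by omega), bet_sum hh', mul_zero, add_zero,
    mu_step_aux hα hs h' hh']
  have h2 : mu S N α (∑ p ∈ range m, X ^ p * C (h' : ℚ) ^ (m - 1 - p)) =
      muL S N α (∑ p ∈ range m, X ^ p * C (h' : ℚ) ^ (m - 1 - p)) := rfl
  rw [h2, map_sum]
  apply sum_congr rfl
  intro p _
  have h3 : (X : ℚ[X]) ^ p * C (h' : ℚ) ^ (m - 1 - p) = ((h' : ℚ) ^ (m - 1 - p)) • (X : ℚ[X]) ^ p := by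
    rw [smul_eq_C_mul, C_pow]; ring
  rw [h3, map_smul]
  change _ * mu S N α (X ^ p) = _
  ring

theorem mu_step_eq {s S N n : ℕ} {α : ℕ → ℕ → ℚ} (hα : Supp s N α) (hs : s + 1 ≤ S)
    (hn : n ≤ N) (m : ℕ) :
    mu S N (step S N n α) (X ^ m) = ∑ p ∈ range m, mu S N α (X ^ p) *
      ∑ h ∈ range (n + 1), (bc n h : ℚ) * (h : ℚ) ^ (m - 1 - p) := by
  have h1 : mu S N (step S N n α) (X ^ m) =
      ∑ h' ∈ range (N + 1), (bc n h' : ℚ) * mu S N (bet S N α h') (X ^ m) := by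
    exact mu_sum S N (range (N + 1)) (fun h' => (bc n h' : ℚ)) (fun h' => bet S N α h') (X ^ m)
  rw [h1]
  have h2 : ∀ h' ∈ range (N + 1), (bc n h' : ℚ) * mu S N (bet S N α h') (X ^ m) =
      ∑ p ∈ range m, mu S N α (X ^ p) * ((bc n h' : ℚ) * (h' : ℚ) ^ (m - 1 - p)) := by
    intro h' hh'
    rw [mu_bet_pow hα hs h' (Nat.lt_succ_iff.mp (mem_range.mp hh')), mul_sum]
    apply sum_congr rfl
    intro p _
    ring
  rw [sum_congr rfl h2, sum_comm]
  apply sum_congr rfl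
  intro p _
  rw [← mul_sum, sum_bc_ext hn (fun h => (h : ℚ) ^ (m - 1 - p))]

theorem mu_step_pow {s S N n V : ℕ} {α : ℕ → ℕ → ℚ} (hα : Supp s N α) (hs : s + 1 ≤ S)
    (hn : n ≤ N) (hV : ∀ p < V, mu S N α (X ^ p) = 0) (m : ℕ) (hm : m < V + n + 1) :
    mu S N (step S N n α) (X ^ m) = 0 := by
  rw [mu_step_eq hα hs hn]
  apply sum_eq_zero
  intro p hp
  by_cases hpV : p < V
  · rw [hV p hpV, zero_mul]
  · have := mem_range.mp hp
    rw [sum_bc_mul_pow (by omega), mul_zero]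

theorem mu_step_pow_self {s S N n V : ℕ} {α : ℕ → ℕ → ℚ} (hα : Supp s N α) (hs : s + 1 ≤ S)
    (hn : n ≤ N) (hV : ∀ p < V, mu S N α (X ^ p) = 0) :
    mu S N (step S N n α) (X ^ (V + n + 1)) = mu S N α (X ^ V) * n ! := by
  rw [mu_step_eq hα hs hn, sum_eq_single_of_mem V (mem_range.mpr (by omega))]
  · rw [show V + n + 1 - 1 - V = n by omega, sum_bc_pow_self]
  · intro p hp hpV
    rcases lt_or_gt_of_ne hpV with h | h
    · rw [hV p h, zero_mul]
    · have := mem_range.mp hp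
      rw [sum_bc_mul_pow (by omega), mul_zero]

end Pool.Agent.Helper66.PI
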