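import Mathlib
import Pool.Agent.Helper66.PI.Alg

/-!
Linear independence of the forms at `θ = π`.
-/

namespace Pool.Agent.Helper66.PI

open Finset Polynomial
open scoped Nat

theorem mu_eq_zero_of_natDegree_lt {S N M : ℕ} {b : ℕ → ℕ → ℚ}
    (hb : ∀ p < M, mu S N b (X ^ p) = 0) (Q : ℚ[X]) (hQ : Q.natDegree < M) :
    mu S N b Q = 0 := by
  have h1 : mu S N b Q = muL S N b Q := rfl
  rw [h1, Q.as_sum_range_C_mul_X_pow, map_sum]
  apply sum_eq_zero
  intro p hp
  rw [← smul_eq_C_mul, map_smul]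
  have h2 : muL S N b (X ^ p) = 0 := hb p (by have := mem_range.mp hp; omega)
  rw [h2, smul_zero]

/-- Hermite interpolation: the functional determines the array. -/
theorem array_eq_zero {S N : ℕ} {b : ℕ → ℕ → ℚ} (hbN : ∀ j < S, b j N = 0)
    (hb : ∀ p < S * N, mu S N b (X ^ p) = 0) : ∀ j < S, ∀ h < N, b j h = 0 := by
  intro j hj h0 hh0
  by_contra hne
  -- the largest index `j0`
  have hex : ∃ j0 < S, b j0 h0 ≠ 0 ∧ ∀ i < S, j0 < i → b i h0 = 0 := by
    classical
    have hne' : ((range S).filter (fun i => b i h0 ≠ 0)).Nonempty := ⟨j, by simp [hj, hne]⟩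
    refine ⟨((range S).filter (fun i => b i h0 ≠ 0)).max' hne', ?_, ?_, ?_⟩
    · have := max'_mem _ hne'
      simp only [mem_filter, mem_range] at this
      exact this.1
    · have := max'_mem _ hne'
      simp only [mem_filter, mem_range] at this
      exact this.2
    · intro i hi hlt
      by_contra hi0
      have := le_max' ((range S).filter (fun i => b i h0 ≠ 0)) i (by simp [hi, hi0])
      omega
  obtain ⟨j0, hj0, hbj0, hmax⟩ := hex
  set R : ℚ[X] := ∏ h ∈ (range N).erase h0, (X - C (h : ℚ)) ^ S with hR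
  set Q : ℚ[X] := (X - C (h0 : ℚ)) ^ j0 * R with hQ
  have hdeg : Q.natDegree < S * N := by
    have h1 : R.natDegree ≤ (N - 1) * S := by
      rw [hR]
      refine (natDegree_prod_le _ _).trans ?_
      refine (sum_le_card_nsmul _ _ S ?_).trans ?_
      · intro h _
        rw [natDegree_pow, natDegree_X_sub_C, mul_one]
      · rw [card_erase_of_mem (mem_range.mpr hh0), card_range, smul_eq_mul]
    have h2 : Q.natDegree ≤ j0 + (N - 1) * S := by
      refine natDegree_mul_le.trans ?_
      rw [natDegree_pow, natDegree_X_sub_C, mul_one]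
      omega
    have h3 : j0 + (N - 1) * S < S * N := by
      obtain ⟨n, rfl⟩ : ∃ n, N = n + 1 := ⟨N - 1, by omega⟩
      rw [Nat.add_sub_cancel]
      calc j0 + n * S < S + n * S := by omega
        _ = S * (n + 1) := by ring
    omega
  have hmu := mu_eq_zero_of_natDegree_lt hb Q hdeg
  rw [mu, sum_comm] at hmu
  rw [sum_eq_single_of_mem h0 (mem_range.mpr (by omega))] at hmu
  · rw [sum_eq_single_of_mem j0 (mem_range.mpr hj0)] at hmu
    · rcases mul_eq_zero.mp hmu with h1 | h1
      · exact hbj0 h1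
      · have e1 : taylor (h0 : ℚ) Q = X ^ j0 * taylor (h0 : ℚ) R := by
          rw [hQ, taylor_mul, taylor_pow, map_sub, taylor_X, taylor_C, add_sub_cancel_right]
        rw [e1] at h1
        have e2 : (X ^ j0 * taylor (h0 : ℚ) R).coeff j0 = (taylor (h0 : ℚ) R).coeff 0 := by
          have := coeff_X_pow_mul (taylor (h0 : ℚ) R) j0 0
          rwa [zero_add] at this
        rw [e2, taylor_coeff_zero, hR, eval_prod] at h1
        rw [prod_eq_zero_iff] at h1
        obtain ⟨h, hh, h2⟩ := h1
        rw [eval_pow, eval_sub, eval_X, eval_C] at h2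
        have h3 := eq_zero_of_pow_eq_zero h2
        have h4 : (h0 : ℚ) = h := by linarith
        exact (ne_of_mem_erase hh) (by exact_mod_cast h4.symm)
    · intro i hi hij
      rcases lt_or_gt_of_ne hij with hlt | hgt
      · have e1 : taylor (h0 : ℚ) Q = X ^ j0 * taylor (h0 : ℚ) R := by
          rw [hQ, taylor_mul, taylor_pow, map_sub, taylor_X, taylor_C, add_sub_cancel_right]
        rw [e1, coeff_X_pow_mul', if_neg (by omega), mul_zero]
      · rw [hmax i (mem_range.mp hi) hgt, zero_mul]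
  · intro h hh hne0
    apply sum_eq_zero
    intro i hi
    by_cases hhN : h = N
    · rw [hhN, hbN i (mem_range.mp hi), zero_mul]
    · have hhlt : h < N := by have := mem_range.mp hh; omega
      have hdvd : X ^ S ∣ taylor (h : ℚ) Q := by
        have h1 : (X - C (h : ℚ)) ^ S ∣ Q := by
          rw [hQ]
          apply Dvd.dvd.mul_left
          rw [hR]
          exact dvd_prod_of_mem (fun h : ℕ => (X - C (h : ℚ)) ^ S)
            (mem_erase.mpr ⟨hne0, mem_range.mpr hhlt⟩)
        obtain ⟨U, hU⟩ := h1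
        rw [hU, taylor_mul, taylor_pow, map_sub, taylor_X, taylor_C, add_sub_cancel_right]
        exact Dvd.intro _ rfl
      rw [X_pow_dvd_iff.mp hdvd i (mem_range.mp hi), mul_zero]

/-- Division by `1 + exp`. -/
theorem mu_div {S N : ℕ} (a : ℕ → ℕ → ℚ)
    (ha : ∀ j < S, ∑ h ∈ range (N + 1), (-1) ^ h * a j h = 0) (Q : ℚ[X]) :
    mu S N (fun j h => (-1) ^ h * ∑ l ∈ range (h + 1), (-1) ^ l * a j l) Q +
      mu S N (fun j h => (-1) ^ h * ∑ l ∈ range (h + 1), (-1) ^ l * a j l) (taylor 1 Q) =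
      mu S N a Q := by
  rw [mu, mu, mu, ← sum_add_distrib]
  apply sum_congr rfl
  intro j hj
  set b : ℕ → ℚ := fun h => (-1) ^ h * ∑ l ∈ range (h + 1), (-1) ^ l * a j l with hb
  have hbN : b N = 0 := by
    simp only [hb]
    rw [ha j (mem_range.mp hj), mul_zero]
  have hb0 : b 0 = a j 0 := by simp [hb]
  have hbs : ∀ h, b (h + 1) + b h = a j (h + 1) := by
    intro h
    simp only [hb]
    rw [sum_range_succ (fun l => (-1) ^ l * a j l) (h + 1)]
    have h2 : ((-1 : ℚ)) ^ (h + 1) * ((-1) ^ (h + 1) * a j (h + 1)) = a j (h + 1) := by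
      rw [← mul_assoc, ← pow_add, Even.neg_one_pow ⟨h + 1, rfl⟩, one_mul]
    rw [mul_add, h2, pow_succ]
    ring
  change ∑ h ∈ range (N + 1), b h * (taylor (h : ℚ) Q).coeff j +
    ∑ h ∈ range (N + 1), b h * (taylor (h : ℚ) (taylor 1 Q)).coeff j = _
  have e1 : ∑ h ∈ range (N + 1), b h * (taylor (h : ℚ) (taylor 1 Q)).coeff j =
      ∑ h ∈ range N, b h * (taylor ((h + 1 : ℕ) : ℚ) Q).coeff j := by
    rw [sum_range_succ, hbN, zero_mul, add_zero]
    apply sum_congr rfl
    intro h _
    rw [taylor_taylor]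
    push_cast
    rfl
  rw [e1, sum_range_succ' _ N, sum_range_succ' _ N, add_right_comm, ← sum_add_distrib, hb0]
  congr 1
  apply sum_congr rfl
  intro h _
  rw [← hbs h]
  ring

theorem mu_pow_of_add {S N M : ℕ} {b : ℕ → ℕ → ℚ}
    (hb : ∀ p < M, mu S N b (X ^ p) + mu S N b (taylor 1 (X ^ p)) = 0) :
    ∀ p < M, mu S N b (X ^ p) = 0 := by
  intro p
  induction p using Nat.strong_induction_on with
  | _ p ih =>
    intro hp
    have h1 := hb p hp
    have h2 : taylor (1 : ℚ) (X ^ p) = X ^ p + ∑ i ∈ range p, ((p.choose i : ℕ) : ℚ) • (X : ℚ[X]) ^ i := by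
      rw [taylor_X_pow, C_1, add_pow, sum_range_succ]
      simp only [one_pow, mul_one, Nat.choose_self, Nat.cast_one]
      rw [add_comm]
      congr 1
      apply sum_congr rfl
      intro i _
      rw [smul_eq_C_mul, mul_comm]
      simp
    have h3 : mu S N b (∑ i ∈ range p, ((p.choose i : ℕ) : ℚ) • (X : ℚ[X]) ^ i) = 0 := by
      change muL S N b _ = 0
      rw [map_sum]
      apply sum_eq_zero
      intro i hi
      rw [map_smul]
      change _ * mu S N b (X ^ i) = 0
      rw [ih i (mem_range.mp hi) ((mem_range.mp hi).trans hp), mul_zero]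
    rw [h2, mu_add, h3] at h1
    linarith

/-- An array with a high order of vanishing and `∑ (-1) ^ h a j h = 0` for all `j` is zero. -/
theorem array_eq_zero' {S N : ℕ} {a : ℕ → ℕ → ℚ}
    (ha : ∀ j < S, ∑ h ∈ range (N + 1), (-1) ^ h * a j h = 0)
    (hmu : ∀ p < S * N, mu S N a (X ^ p) = 0) : ∀ j < S, ∀ h ≤ N, a j h = 0 := by
  set b : ℕ → ℕ → ℚ := fun j h => (-1) ^ h * ∑ l ∈ range (h + 1), (-1) ^ l * a j l with hb
  have h1 : ∀ p < S * N, mu S N b (X ^ p) = 0 := by
    apply mu_pow_of_add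
    intro p hp
    rw [hb, mu_div a ha, hmu p hp]
  have hbN : ∀ j < S, b j N = 0 := by
    intro j hj
    simp only [hb]
    rw [ha j hj, mul_zero]
  have h2 := array_eq_zero hbN h1
  have h3 : ∀ j < S, ∀ h ≤ N, ∑ l ∈ range (h + 1), (-1) ^ l * a j l = 0 := by
    intro j hj h hh
    have h4 : b j h = 0 := by
      rcases Nat.lt_or_eq_of_le hh with hlt | heq
      · exact h2 j hj h hlt
      · rw [heq]; exact hbN j hj
    simp only [hb] at h4
    rcases mul_eq_zero.mp h4 with h5 | h5
    · exact absurd h5 (pow_ne_zero _ (by norm_num))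
    · exact h5
  intro j hj h hh
  have h4 := h3 j hj h hh
  have h5 : ∑ l ∈ range h, (-1) ^ l * a j l = 0 := by
    rcases Nat.eq_zero_or_pos h with h0 | hpos
    · rw [h0]; simp
    · have := h3 j hj (h - 1) (by omega)
      rwa [show h - 1 + 1 = h by omega] at this
  rw [sum_range_succ, h5, zero_add] at h4
  rcases mul_eq_zero.mp h4 with h6 | h6
  · exact absurd h6 (pow_ne_zero _ (by norm_num))
  · exact h6

/-- Arrays with different orders of vanishing give independent rows at `exp x = -1`. -/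
theorem indep {K N : ℕ} (A : ℕ → ℕ → ℕ → ℚ) (V : ℕ → ℕ)
    (hmu : ∀ t ≤ K, ∀ p < V t, mu (K + 1) N (A t) (X ^ p) = 0)
    (hmu' : ∀ t ≤ K, mu (K + 1) N (A t) (X ^ V t) ≠ 0)
    (hVN : ∀ t ≤ K, (K + 1) * N ≤ V t) (hVmono : ∀ t ≤ K, ∀ t' < t, V t < V t')
    (v : ℕ → ℚ)
    (hv : ∀ j < K + 1, ∑ t ∈ range (K + 1), v t * ∑ h ∈ range (N + 1), (-1) ^ h * A t j h = 0) :
    ∀ t ≤ K, v t = 0 := by
  have h1 := array_eq_zero' (S := K + 1) (N := N)
    (a := fun j h => ∑ t ∈ range (K + 1), v t * A t j h) (by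
      intro j hj
      rw [← hv j hj]
      simp only [mul_sum]
      rw [sum_comm]
      apply sum_congr rfl
      intro t _
      apply sum_congr rfl
      intro h _
      ring) (by
      intro p hp
      rw [mu_sum]
      apply sum_eq_zero
      intro t ht
      have htK := Nat.lt_succ_iff.mp (mem_range.mp ht)
      rw [hmu t htK p (hp.trans_le (hVN t htK)), mul_zero])
  -- the functional of the combination vanishes
  have h2 : ∀ p, ∑ t ∈ range (K + 1), v t * mu (K + 1) N (A t) (X ^ p) = 0 := by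
    intro p
    rw [← mu_sum, mu]
    apply sum_eq_zero
    intro j hj
    apply sum_eq_zero
    intro h hh
    rw [h1 j (mem_range.mp hj) h (Nat.lt_succ_iff.mp (mem_range.mp hh)), zero_mul]
  by_contra hcon
  push Not at hcon
  obtain ⟨t0, ht0, hvt0⟩ := hcon
  classical
  have hne : ((range (K + 1)).filter (fun t => v t ≠ 0)).Nonempty :=
    ⟨t0, by simp [hvt0]; omega⟩
  set t1 := ((range (K + 1)).filter (fun t => v t ≠ 0)).max' hne with ht1
  have hmem := max'_mem _ hne
  rw [← ht1, mem_filter, mem_range] at hmem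
  have ht1K : t1 ≤ K := Nat.lt_succ_iff.mp hmem.1
  have h3 := h2 (V t1)
  rw [sum_eq_single_of_mem t1 (mem_range.mpr hmem.1)] at h3
  · rcases mul_eq_zero.mp h3 with h4 | h4
    · exact hmem.2 h4
    · exact hmu' t1 ht1K h4
  · intro t ht htt
    rcases lt_or_gt_of_ne htt with hlt | hgt
    · rw [hmu t (by have := mem_range.mp ht; omega) (V t1) (hVmono t1 ht1K t hlt), mul_zero]
    · have h5 : v t = 0 := by
        by_contra hvt
        have := le_max' ((range (K + 1)).filter (fun t => v t ≠ 0)) t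
          (by rw [mem_filter]; exact ⟨ht, hvt⟩)
        rw [← ht1] at this
        omega
      rw [h5, zero_mul]

end Pool.Agent.Helper66.PI
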