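import Mathlib
import Pool.Agent.Helper66.PI.Indep

/-!
Analytic bound for the forms.
-/

namespace Pool.Agent.Helper66.PI

open Finset Polynomial Complex
open scoped Nat

/-- `(iθ)^j / j!`. -/
noncomputable def ev (j : ℕ) (θ : ℝ) : ℂ := (I * θ) ^ j / (j ! : ℂ)

theorem hasDerivAt_ev_zero (θ : ℝ) : HasDerivAt (ev 0) 0 θ := by
  have : ev 0 = fun _ : ℝ => (1 : ℂ) := by
    funext θ
    simp [ev]
  rw [this]
  exact hasDerivAt_const θ 1

theorem hasDerivAt_ev_succ (j : ℕ) (θ : ℝ) : HasDerivAt (ev (j + 1)) (I * ev j θ) θ := by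
  have h1 : HasDerivAt (fun θ : ℝ => I * (θ : ℂ)) (I * 1) θ :=
    (hasDerivAt_id θ).ofReal_comp.const_mul I
  have h2 := (h1.pow (j + 1)).div_const ((j + 1)! : ℂ)
  refine h2.congr_deriv ?_
  have hj : ((j : ℂ) + 1) ≠ 0 := by exact_mod_cast Nat.succ_ne_zero j
  have hj2 : ((j ! : ℕ) : ℂ) ≠ 0 := by exact_mod_cast (Nat.factorial_pos j).ne'
  rw [ev, Nat.factorial_succ]
  push_cast
  field_simp

/-- `exp (ihθ)`. -/
noncomputable def ex (h : ℝ) (θ : ℝ) : ℂ := Complex.exp (I * h * θ)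

theorem hasDerivAt_ex (h θ : ℝ) : HasDerivAt (ex h) (I * h * ex h θ) θ := by
  have h1 : HasDerivAt (fun θ : ℝ => I * h * (θ : ℂ)) (I * h * 1) θ :=
    (hasDerivAt_id θ).ofReal_comp.const_mul (I * h)
  refine h1.cexp.congr_deriv ?_
  rw [ex]
  ring

/-- The value of an array. -/
noncomputable def Ev (S N : ℕ) (α : ℕ → ℕ → ℚ) (θ : ℝ) : ℂ :=
  ∑ h ∈ range (N + 1), (∑ j ∈ range S, (α j h : ℂ) * ev j θ) * ex h θ

theorem hasDerivAt_inner {S : ℕ} (β : ℕ → ℚ) (hβ : β S = 0) (θ : ℝ) :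
    HasDerivAt (fun θ => ∑ j ∈ range S, (β j : ℂ) * ev j θ)
      (I * ∑ j ∈ range S, (β (j + 1) : ℂ) * ev j θ) θ := by
  rcases Nat.eq_zero_or_pos S with h0 | hpos
  · subst h0
    simp only [range_zero, sum_empty, mul_zero]
    exact hasDerivAt_const θ 0
  obtain ⟨S, rfl⟩ : ∃ S', S = S' + 1 := ⟨S - 1, by omega⟩
  have h1 : ∑ j ∈ range (S + 1), (β (j + 1) : ℂ) * ev j θ =
      ∑ j ∈ range S, (β (j + 1) : ℂ) * ev j θ := by
    rw [sum_range_succ, hβ, Rat.cast_zero, zero_mul, add_zero]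
  have h2 : (fun θ => ∑ j ∈ range (S + 1), (β j : ℂ) * ev j θ) =
      fun θ => ∑ j ∈ range S, (β (j + 1) : ℂ) * ev (j + 1) θ + (β 0 : ℂ) * ev 0 θ := by
    funext θ
    rw [sum_range_succ']
  rw [h1, h2, mul_sum]
  have h3 : HasDerivAt (fun θ => ∑ j ∈ range S, (β (j + 1) : ℂ) * ev (j + 1) θ)
      (∑ j ∈ range S, (β (j + 1) : ℂ) * (I * ev j θ)) θ := by
    apply HasDerivAt.fun_sum
    intro j _
    exact (hasDerivAt_ev_succ j θ).const_mul _
  refine (h3.add ((hasDerivAt_ev_zero θ).const_mul _)).congr_deriv ?_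
  rw [mul_zero, add_zero]
  apply sum_congr rfl
  intro j _
  ring

theorem hasDerivAt_Ev_bet {s S N : ℕ} {α : ℕ → ℕ → ℚ} (hα : Supp s N α) (hs : s + 1 ≤ S) {h' : ℕ}
    (hh' : h' ≤ N) (θ : ℝ) :
    HasDerivAt (Ev S N (bet S N α h'))
      (I * h' * Ev S N (bet S N α h') θ + I * Ev S N α θ) θ := by
  have hb := bet_supp (S := S) hα hh'
  have h1 : HasDerivAt (Ev S N (bet S N α h'))
      (∑ h ∈ range (N + 1), ((I * ∑ j ∈ range S, (bet S N α h' (j + 1) h : ℂ) * ev j θ) * ex h θ +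
        (∑ j ∈ range S, (bet S N α h' j h : ℂ) * ev j θ) * (I * h * ex h θ))) θ := by
    apply HasDerivAt.fun_sum
    intro h _
    exact (hasDerivAt_inner (fun j => bet S N α h' j h) (hb S h (Or.inl hs)) θ).mul
      (by have := hasDerivAt_ex h θ; exact_mod_cast this)
  refine h1.congr_deriv ?_
  rw [Ev, Ev, mul_sum, mul_sum, ← sum_add_distrib]
  apply sum_congr rfl
  intro h _
  have h2 : ∀ j, (bet S N α h' (j + 1) h : ℂ) = α j h - ((h : ℂ) - h') * bet S N α h' j h := by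
    intro j
    have := bet_rec hα (by omega : s ≤ S) h' j h
    have h3 : bet S N α h' (j + 1) h = α j h - ((h : ℚ) - h') * bet S N α h' j h := by linarith
    rw [h3]
    push_cast
    ring
  have h3 : ∑ j ∈ range S, (bet S N α h' (j + 1) h : ℂ) * ev j θ =
      ∑ j ∈ range S, (α j h : ℂ) * ev j θ -
        ((h : ℂ) - h') * ∑ j ∈ range S, (bet S N α h' j h : ℂ) * ev j θ := by
    rw [mul_sum, ← sum_sub_distrib]
    apply sum_congr rfl
    intro j _
    rw [h2]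
    ring
  rw [h3]
  ring

theorem Ev_bet_zero {S N : ℕ} (hS : 1 ≤ S) (α : ℕ → ℕ → ℚ) {h' : ℕ} (hh' : h' ≤ N) :
    Ev S N (bet S N α h') 0 = 0 := by
  have h1 : Ev S N (bet S N α h') 0 = ((∑ h ∈ range (N + 1), bet S N α h' 0 h : ℚ) : ℂ) := by
    rw [Ev]
    push_cast
    apply sum_congr rfl
    intro h _
    rw [sum_eq_single_of_mem 0 (mem_range.mpr hS)]
    · simp [ev, ex]
    · intro j _ hj
      simp [ev, hj]
  rw [h1, bet_sum hh', Rat.cast_zero]

theorem Ev_step {S N n : ℕ} (α : ℕ → ℕ → ℚ) (θ : ℝ) :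
    Ev S N (step S N n α) θ = ∑ h' ∈ range (N + 1), (bc n h' : ℂ) * Ev S N (bet S N α h') θ := by
  simp only [Ev, step]
  have h1 : ∀ i ∈ range (N + 1), (bc n i : ℂ) *
      ∑ h ∈ range (N + 1), (∑ j ∈ range S, (bet S N α i j h : ℂ) * ev j θ) * ex h θ =
      ∑ h ∈ range (N + 1), (∑ j ∈ range S, (bc n i : ℂ) * bet S N α i j h * ev j θ) * ex h θ := by
    intro i _
    rw [mul_sum]
    apply sum_congr rfl
    intro h _
    rw [← mul_assoc, mul_sum]
    congr 1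
    apply sum_congr rfl
    intro j _
    ring
  rw [sum_congr rfl h1, sum_comm (s := range (N + 1))]
  apply sum_congr rfl
  intro h _
  rw [← sum_mul]
  congr 1
  rw [sum_comm]
  apply sum_congr rfl
  intro j _
  rw [← sum_mul]
  push_cast
  rfl

theorem norm_exp_sub_one_le (u : ℝ) (hu : 0 ≤ u) : ‖Complex.exp (I * u) - 1‖ ≤ u := by
  have := Real.norm_exp_I_mul_ofReal_sub_one_le (x := u)
  rwa [Real.norm_eq_abs, abs_of_nonneg hu] at this

theorem norm_exp_sub_one_le_two (u : ℝ) : ‖Complex.exp (I * u) - 1‖ ≤ 2 := by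
  refine (norm_sub_le _ _).trans ?_
  rw [mul_comm, Complex.norm_exp_ofReal_mul_I, norm_one]
  norm_num

/-- The convolution bound. -/
theorem Ev_step_bound {s S N n : ℕ} {α : ℕ → ℕ → ℚ} (hα : Supp s N α) (hs : s + 1 ≤ S) (hn : n ≤ N)
    {θ B : ℝ}
    (hθ : 0 ≤ θ) (hB : ∀ u ∈ Set.Icc 0 θ, ‖Ev S N α u‖ * ‖Complex.exp (I * (θ - u : ℝ)) - 1‖ ^ n ≤ B) :
    ‖Ev S N (step S N n α) θ‖ ≤ B * θ := by
  set f : ℝ → ℂ := fun u => ∑ h' ∈ range (N + 1),
    (bc n h' : ℂ) * (Complex.exp (I * h' * (θ - u : ℝ)) * Ev S N (bet S N α h') u) with hf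
  set f' : ℝ → ℂ := fun u => I * (Ev S N α u * (Complex.exp (I * (θ - u : ℝ)) - 1) ^ n) with hf'
  have hderiv : ∀ u, HasDerivAt f (f' u) u := by
    intro u
    have h1 : HasDerivAt f (∑ h' ∈ range (N + 1),
        (bc n h' : ℂ) * (Complex.exp (I * h' * (θ - u : ℝ)) * (-(I * h')) * Ev S N (bet S N α h') u +
          Complex.exp (I * h' * (θ - u : ℝ)) *
            (I * h' * Ev S N (bet S N α h') u + I * Ev S N α u))) u := by
      apply HasDerivAt.fun_sum
      intro h' hh'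
      have hh'N : h' ≤ N := Nat.lt_succ_iff.mp (mem_range.mp hh')
      apply HasDerivAt.const_mul
      apply HasDerivAt.mul
      · have h2 : HasDerivAt (fun u : ℝ => I * h' * ((θ - u : ℝ) : ℂ)) (-(I * h')) u := by
          have h3 : HasDerivAt (fun u : ℝ => ((θ - u : ℝ) : ℂ)) (-1) u := by
            have := ((hasDerivAt_id u).const_sub θ).ofReal_comp
            simpa using this
          refine (h3.const_mul (I * h')).congr_deriv ?_
          ring
        exact h2.cexp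
      · exact hasDerivAt_Ev_bet hα hs hh'N u
    refine h1.congr_deriv ?_
    rw [hf']
    simp only
    rw [← sum_bc_pow n, ← sum_bc_ext hn (fun h => Complex.exp (I * (θ - u : ℝ)) ^ h), mul_sum, mul_sum]
    apply sum_congr rfl
    intro h' _
    rw [← Complex.exp_nat_mul]
    rw [show (h' : ℂ) * (I * ((θ - u : ℝ) : ℂ)) = I * h' * ((θ - u : ℝ) : ℂ) by ring]
    ring
  have h0 : f 0 = 0 := by
    rw [hf]
    simp only
    apply sum_eq_zero
    intro h' hh'
    rw [Ev_bet_zero (by omega) α (Nat.lt_succ_iff.mp (mem_range.mp hh'))]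
    ring
  have hθθ : f θ = Ev S N (step S N n α) θ := by
    rw [Ev_step, hf]
    simp only [sub_self, Complex.ofReal_zero, mul_zero, Complex.exp_zero, one_mul]
  have hmv := norm_image_sub_le_of_norm_deriv_le_segment' (f := f) (f' := f') (C := B) (a := 0)
    (b := θ) (fun x _ => (hderiv x).hasDerivWithinAt) (by
      intro x hx
      rw [hf']
      simp only
      rw [norm_mul, Complex.norm_I, one_mul, norm_mul, norm_pow]
      exact hB x ⟨hx.1, hx.2.le⟩) θ ⟨hθ, le_rfl⟩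
  rw [h0, sub_zero, sub_zero, hθθ] at hmv
  exact hmv

/-- Weighted AM-GM. -/
theorem pow_mul_le (s : ℕ) (x y : ℝ) (hx : 0 ≤ x) (hy : 0 ≤ y) :
    x ^ s * y ≤ ((s * x + y) / (s + 1)) ^ (s + 1) := by
  have hs : (0 : ℝ) < s + 1 := by positivity
  have h1 := Real.geom_mean_le_arith_mean2_weighted (w₁ := s / (s + 1)) (w₂ := 1 / (s + 1))
    (by positivity) (by positivity) hx hy (by field_simp)
  have h2 : (s / (s + 1) * x + 1 / (s + 1) * y : ℝ) = (s * x + y) / (s + 1) := by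
    field_simp
  rw [h2] at h1
  have h3 := pow_le_pow_left₀ (by positivity) h1 (s + 1)
  refine le_trans (le_of_eq ?_) h3
  have e1 : (x ^ ((s : ℝ) / (s + 1))) ^ (s + 1) = x ^ s := by
    rw [← Real.rpow_natCast, ← Real.rpow_mul hx]
    push_cast
    rw [div_mul_cancel₀ _ hs.ne', Real.rpow_natCast]
  have e2 : (y ^ ((1 : ℝ) / (s + 1))) ^ (s + 1) = y := by
    rw [← Real.rpow_natCast, ← Real.rpow_mul hy]
    push_cast
    rw [div_mul_cancel₀ _ hs.ne', Real.rpow_one]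
  rw [mul_pow, e1, e2]

theorem pow_le_two_mul {N n : ℕ} (hn : n = N - 1 ∨ n = N) (hN : 1 ≤ N) (v : ℝ) (hv : 0 ≤ v) :
    ‖Complex.exp (I * v) - 1‖ ^ n ≤ 2 * v ^ (N - 1) := by
  have hw0 : 0 ≤ ‖Complex.exp (I * v) - 1‖ := norm_nonneg _
  have h1 : ‖Complex.exp (I * v) - 1‖ ^ (N - 1) ≤ v ^ (N - 1) :=
    pow_le_pow_left₀ hw0 (norm_exp_sub_one_le _ hv) _
  rcases hn with h | h
  · rw [h]
    have : 0 ≤ v ^ (N - 1) := by positivity
    linarith
  · have h2 : ‖Complex.exp (I * v) - 1‖ ^ n =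
        ‖Complex.exp (I * v) - 1‖ * ‖Complex.exp (I * v) - 1‖ ^ (N - 1) := by
      rw [h, ← pow_succ']; congr 1; omega
    rw [h2]
    exact mul_le_mul (norm_exp_sub_one_le_two _) h1 (by positivity) (by norm_num)

theorem step_induct {s N n : ℕ} (hn : n = N - 1 ∨ n = N) (hN : 1 ≤ N) (hs : 1 ≤ s) {θ u : ℝ}
    (hu : u ∈ Set.Icc 0 θ) (E : ℝ) (hE : E ≤ u ^ (s - 1) * 2 ^ s * (u / s) ^ (s * (N - 1))) :
    E * ‖Complex.exp (I * (θ - u : ℝ)) - 1‖ ^ n ≤
      θ ^ (s - 1) * 2 ^ (s + 1) * (θ / (s + 1 : ℕ)) ^ ((s + 1) * (N - 1)) := by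
  obtain ⟨hu0, hu1⟩ := hu
  have hθu : 0 ≤ θ - u := by linarith
  have hs0 : (0 : ℝ) < s := by exact_mod_cast hs
  have hw1 := pow_le_two_mul hn hN (θ - u) hθu
  set w := ‖Complex.exp (I * (θ - u : ℝ)) - 1‖ with hw
  have hw0 : 0 ≤ w := norm_nonneg _
  have h2 : (u / s) ^ s * (θ - u) ≤ (θ / (s + 1 : ℕ)) ^ (s + 1) := by
    have := pow_mul_le s (u / s) (θ - u) (by positivity) hθu
    rwa [mul_div_cancel₀ _ hs0.ne', show u + (θ - u) = θ by ring, ← Nat.cast_succ] at this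
  have hR : 0 ≤ u ^ (s - 1) * 2 ^ s * (u / s) ^ (s * (N - 1)) := by positivity
  calc E * w ^ n ≤ (u ^ (s - 1) * 2 ^ s * (u / s) ^ (s * (N - 1))) *
        (2 * (θ - u) ^ (N - 1)) := mul_le_mul hE hw1 (by positivity) hR
    _ = u ^ (s - 1) * 2 ^ (s + 1) * ((u / s) ^ s * (θ - u)) ^ (N - 1) := by
        rw [mul_pow, ← pow_mul, pow_succ]
        ring
    _ ≤ θ ^ (s - 1) * 2 ^ (s + 1) * ((θ / (s + 1 : ℕ)) ^ (s + 1)) ^ (N - 1) := by
        apply mul_le_mul
        · apply mul_le_mul_of_nonneg_right _ (by positivity)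
          exact pow_le_pow_left₀ hu0 hu1 _
        · exact pow_le_pow_left₀ (mul_nonneg (by positivity) hθu) h2 _
        · exact pow_nonneg (mul_nonneg (by positivity) hθu) _
        · exact mul_nonneg (pow_nonneg (hu0.trans hu1) _) (by positivity)
    _ = _ := by rw [← pow_mul]

/-- The base arrays. -/
def base (n : ℕ) (j h : ℕ) : ℚ := if j = 0 then (bc n h : ℚ) else 0

theorem base_supp {n N : ℕ} (hn : n ≤ N) : Supp 1 N (base n) := by
  intro j h hjh
  rcases hjh with hj | hh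
  · simp [base, show j ≠ 0 by omega]
  · by_cases hj : j = 0
    · simp [base, hj, bc_of_lt (show n < h by omega)]
    · simp [base, hj]

theorem Ev_base {S n N : ℕ} (hS : 1 ≤ S) (hn : n ≤ N) (θ : ℝ) :
    Ev S N (base n) θ = (Complex.exp (I * θ) - 1) ^ n := by
  rw [← sum_bc_pow n, Ev, ← sum_bc_ext hn (fun h => Complex.exp (I * θ) ^ h)]
  apply sum_congr rfl
  intro h _
  rw [sum_eq_single_of_mem 0 (mem_range.mpr hS)]
  · rw [← Complex.exp_nat_mul, ex]
    simp only [base, if_true, ev, pow_zero, Nat.factorial_zero, Nat.cast_one, div_one, mul_one]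
    rw [show (h : ℂ) * (I * θ) = I * (h : ℝ) * θ by push_cast; ring]
    push_cast
    rfl
  · intro j _ hj
    simp [base, hj]

/-- The arrays: convolution of the powers `e 0, ..., e s`. -/
def arr (S N : ℕ) (e : ℕ → ℕ) : ℕ → (ℕ → ℕ → ℚ)
  | 0 => base (e 0)
  | (s + 1) => step S N (e (s + 1)) (arr S N e s)

/-- The order of vanishing. -/
def ordV (e : ℕ → ℕ) : ℕ → ℕ
  | 0 => e 0
  | (s + 1) => ordV e s + e (s + 1) + 1

theorem arr_supp {S N : ℕ} {e : ℕ → ℕ} (he : ∀ i, e i ≤ N) (s : ℕ) :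
    Supp (s + 1) N (arr S N e s) := by
  induction s with
  | zero => exact base_supp (he 0)
  | succ s ih => exact step_supp ih

theorem mu_base {S N n : ℕ} (hS : 1 ≤ S) (hn : n ≤ N) (p : ℕ) :
    mu S N (base n) (X ^ p) = ∑ h ∈ range (n + 1), (bc n h : ℚ) * (h : ℚ) ^ p := by
  rw [← sum_bc_ext hn (fun h => (h : ℚ) ^ p), mu, sum_comm]
  apply sum_congr rfl
  intro h _
  rw [sum_eq_single_of_mem 0 (mem_range.mpr hS)]
  · rw [taylor_coeff_zero]
    simp [base]
  · intro j _ hj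
    simp [base, hj]

theorem arr_mu {S N : ℕ} {e : ℕ → ℕ} (he : ∀ i, e i ≤ N) (s : ℕ) (hs : s + 1 ≤ S) :
    (∀ p < ordV e s, mu S N (arr S N e s) (X ^ p) = 0) ∧
      mu S N (arr S N e s) (X ^ (ordV e s)) ≠ 0 := by
  induction s with
  | zero =>
    refine ⟨?_, ?_⟩
    · intro p hp
      rw [ordV] at hp
      rw [arr, mu_base hs (he 0), sum_bc_mul_pow hp]
    · rw [arr, ordV, mu_base hs (he 0), sum_bc_pow_self]
      exact_mod_cast (Nat.factorial_pos _).ne'
  | succ s ih =>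
    have hih := ih (by omega)
    refine ⟨?_, ?_⟩
    · intro p hp
      exact mu_step_pow (arr_supp he s) (by omega) (he _) hih.1 p hp
    · rw [arr, ordV, mu_step_pow_self (arr_supp he s) (by omega) (he _) hih.1]
      exact mul_ne_zero hih.2 (by exact_mod_cast (Nat.factorial_pos _).ne')

theorem arr_int {S N d : ℕ} {e : ℕ → ℕ} (he : ∀ i, e i ≤ N)
    (hd : ∀ i : ℕ, 1 ≤ i → i ≤ N → i ∣ d) (s : ℕ) :
    ∀ j h, j < s + 1 → (d : ℚ) ^ (s + 1 - 1 - j) * arr S N e s j h ∈ ZZ := by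
  induction s with
  | zero =>
    intro j h hj
    have : j = 0 := by omega
    subst this
    simp only [zero_add, tsub_self, pow_zero, one_mul, arr, base, if_true]
    exact intCast_mem_ZZ _
  | succ s ih => exact step_int (arr_supp he s) hd ih

theorem arr_bound {S N : ℕ} {e : ℕ → ℕ} (hS : 1 ≤ S) (he : ∀ i, e i ≤ N) (s : ℕ) :
    ∀ j h, |(arr S N e s j h : ℝ)| ≤ (2 ^ N * ((N + 1) * S)) ^ s * 2 ^ N := by
  induction s with
  | zero =>
    intro j h
    simp only [arr, base, pow_zero, one_mul]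
    split_ifs with hj
    · have h1 := abs_bc (e 0) h
      have h2 : (e 0).choose h ≤ 2 ^ (e 0) := Nat.choose_le_two_pow (e 0) h
      have h3 : (2 : ℕ) ^ (e 0) ≤ 2 ^ N := Nat.pow_le_pow_right (by norm_num) (he 0)
      have h4 : |bc (e 0) h| ≤ ((2 ^ N : ℕ) : ℤ) := by
        rw [h1]; exact_mod_cast h2.trans h3
      have h5 : |((bc (e 0) h : ℤ) : ℝ)| ≤ ((2 ^ N : ℕ) : ℝ) := by exact_mod_cast h4
      push_cast at h5 ⊢
      exact h5
    · simp
  | succ s ih =>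
    intro j h
    refine (step_bound ih hS (he _) j h).trans (le_of_eq ?_)
    rw [pow_succ]
    ring

theorem arr_Ev {S N : ℕ} {e : ℕ → ℕ} (he : ∀ i, e i = N - 1 ∨ e i = N) (hN : 1 ≤ N) (s : ℕ)
    (hs : s + 1 ≤ S) (θ : ℝ) (hθ : 0 ≤ θ) :
    ‖Ev S N (arr S N e s) θ‖ ≤ θ ^ s * 2 ^ (s + 1) * (θ / (s + 1 : ℕ)) ^ ((s + 1) * (N - 1)) := by
  have he' : ∀ i, e i ≤ N := fun i => by rcases he i with h | h <;> omega
  induction s generalizing θ with
  | zero =>
    rw [arr, Ev_base hs (he' 0), norm_pow]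
    refine (pow_le_two_mul (he 0) hN θ hθ).trans (le_of_eq ?_)
    simp
  | succ s ih =>
    rw [arr]
    have h1 := Ev_step_bound (arr_supp he' s) hs (he' (s + 1)) (θ := θ)
      (B := θ ^ s * 2 ^ (s + 1 + 1) * (θ / (s + 1 + 1 : ℕ)) ^ ((s + 1 + 1) * (N - 1))) hθ (by
        intro u hu
        have h2 := ih (by omega) u hu.1
        exact step_induct (s := s + 1) (he (s + 1)) hN (by omega) hu _ (by simpa using h2))
    refine h1.trans (le_of_eq ?_)
    rw [pow_succ]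
    ring

/-- The exponents: `N - 1` for `i < t` and `N` for `i ≥ t`. -/
def ee (N t i : ℕ) : ℕ := if i < t then N - 1 else N

theorem ee_cases (N t i : ℕ) : ee N t i = N - 1 ∨ ee N t i = N := by
  unfold ee
  split_ifs
  · exact Or.inl rfl
  · exact Or.inr rfl

theorem ordV_ee {N : ℕ} (hN : 1 ≤ N) (t s : ℕ) :
    ordV (ee N t) s + 1 + min t (s + 1) = (s + 1) * (N + 1) := by
  induction s with
  | zero =>
    rw [ordV, ee]
    split_ifs with h
    · omega
    · omega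
  | succ s ih =>
    rw [ordV, ee]
    have h1 : (s + 1 + 1) * (N + 1) = (s + 1) * (N + 1) + (N + 1) := by ring
    rw [h1, ← ih]
    split_ifs with h
    · omega
    · omega

end Pool.Agent.Helper66.PI
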