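import Mathlib
import Pool.Agent.Helper66.PI.Anal

/-!
The core estimate: integers close to `X π^j`, `0 ≤ j ≤ K`.
-/

namespace Pool.Agent.Helper66.PI

open Finset Polynomial Complex
open scoped Nat

/-- The value matrix. -/
def vm (K N : ℕ) (t j : ℕ) : ℚ :=
  ∑ h ∈ range (N + 1), (-1) ^ h * arr (K + 1) N (ee N t) K j h

theorem ee_le (N t : ℕ) : ∀ i, ee N t i ≤ N := by
  intro i
  rcases ee_cases N t i with h | h <;> omega

theorem vm_det {K N : ℕ} (hN : 1 ≤ N) :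
    (Matrix.of fun t j : Fin (K + 1) => vm K N t j).det ≠ 0 := by
  intro hdet
  rw [← Matrix.exists_vecMul_eq_zero_iff] at hdet
  obtain ⟨v, hv0, hv⟩ := hdet
  apply hv0
  set v' : ℕ → ℚ := fun t => if ht : t < K + 1 then v ⟨t, ht⟩ else 0 with hv'
  have hord : ∀ t ≤ K, ordV (ee N t) K + 1 + t = (K + 1) * (N + 1) := by
    intro t ht
    have := ordV_ee hN t K
    rwa [min_eq_left (by omega)] at this
  have h1 := indep (fun t => arr (K + 1) N (ee N t) K) (fun t => ordV (ee N t) K)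
    (fun t _ => (arr_mu (ee_le N t) K le_rfl).1)
    (fun t _ => (arr_mu (ee_le N t) K le_rfl).2)
    (by
      intro t ht
      have h2 := hord t ht
      have h3 : (K + 1) * (N + 1) = (K + 1) * N + K + 1 := by ring
      omega)
    (by
      intro t ht t' ht'
      have h2 := hord t ht
      have h3 := hord t' (by omega)
      omega)
    v' (by
      intro j hj
      have h2 := congrFun hv ⟨j, hj⟩
      rw [Matrix.vecMul, dotProduct] at h2
      simp only [Matrix.of_apply, Pi.zero_apply] at h2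
      rw [← Fin.sum_univ_eq_sum_range (fun t => v' t * ∑ h ∈ range (N + 1),
        (-1) ^ h * arr (K + 1) N (ee N t) K j h) (K + 1), ← h2]
      apply sum_congr rfl
      intro t _
      have e3 : v' t = v t := by simp only [hv', dif_pos t.2]
      rw [e3, vm])
  funext t
  have h2 := h1 t (Nat.lt_succ_iff.mp t.2)
  simp only [hv', dif_pos t.2] at h2
  exact h2

theorem vm_int {K N d : ℕ} (hd : ∀ i : ℕ, 1 ≤ i → i ≤ N → i ∣ d) (t j : ℕ) (hj : j ≤ K) :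
    ∃ z : ℤ, (d : ℚ) ^ K * vm K N t j * ((K ! : ℚ) / j !) = z := by
  have h1 : (d : ℚ) ^ K * vm K N t j ∈ ZZ := by
    rw [vm, mul_sum]
    apply sum_mem
    intro h _
    have h2 := arr_int (S := K + 1) (ee_le N t) hd K j h (by omega)
    rw [Nat.add_sub_cancel] at h2
    have h3 : (d : ℚ) ^ K * ((-1) ^ h * arr (K + 1) N (ee N t) K j h) =
        (-1) ^ h * ((d : ℚ) ^ j * ((d : ℚ) ^ (K - j) * arr (K + 1) N (ee N t) K j h)) := by
      have : (d : ℚ) ^ K = (d : ℚ) ^ j * (d : ℚ) ^ (K - j) := by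
        rw [← pow_add]; congr 1; omega
      rw [this]; ring
    rw [h3]
    apply ZZ.mul_mem (ZZ.pow_mem (ZZ.neg_mem ZZ.one_mem) _)
    exact ZZ.mul_mem (ZZ.pow_mem (natCast_mem_ZZ _) _) h2
  have h2 : (K ! : ℚ) / j ! ∈ ZZ := by
    have h3 := Nat.factorial_dvd_factorial hj
    obtain ⟨e, he⟩ := h3
    have hj0 : ((j ! : ℕ) : ℚ) ≠ 0 := by exact_mod_cast (Nat.factorial_pos j).ne'
    refine ⟨(e : ℤ), ?_⟩
    rw [eq_div_iff hj0, he]
    simp [mul_comm]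
  obtain ⟨z, hz⟩ := ZZ.mul_mem h1 h2
  exact ⟨z, hz.symm⟩

theorem one_le_norm_gaussian {K : ℕ} (z : ℕ → ℤ)
    (hne : ∑ j ∈ range (K + 1), (z j : ℂ) * I ^ j ≠ 0) :
    1 ≤ ‖∑ j ∈ range (K + 1), (z j : ℂ) * I ^ j‖ := by
  set g : GaussianInt := ∑ j ∈ range (K + 1), (z j : GaussianInt) * (⟨0, 1⟩ : GaussianInt) ^ j with hg
  have hI : GaussianInt.toComplex ⟨0, 1⟩ = I := by
    rw [GaussianInt.toComplex_def']
    simp
  have h1 : GaussianInt.toComplex g = ∑ j ∈ range (K + 1), (z j : ℂ) * I ^ j := by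
    rw [hg, map_sum]
    apply sum_congr rfl
    intro j _
    rw [map_mul, map_pow, hI, map_intCast]
  rw [← h1] at hne ⊢
  have h2 : g ≠ 0 := by
    intro h0
    apply hne
    rw [h0, map_zero]
  have h3 : 0 < g.norm := GaussianInt.norm_pos.mpr h2
  have h4 : (1 : ℝ) ≤ (g.norm : ℝ) := by exact_mod_cast h3
  rw [GaussianInt.intCast_real_norm, Complex.normSq_eq_norm_sq] at h4
  nlinarith [norm_nonneg (GaussianInt.toComplex g)]

theorem vm_abs {K N : ℕ} (t j : ℕ) :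
    |(vm K N t j : ℝ)| ≤ (N + 1) * ((2 ^ N * ((N + 1) * (K + 1 : ℕ))) ^ K * 2 ^ N) := by
  have h0 : (vm K N t j : ℝ) = ∑ h ∈ range (N + 1), (-1) ^ h * (arr (K + 1) N (ee N t) K j h : ℝ) := by
    rw [vm]
    push_cast
    rfl
  rw [h0]
  refine (abs_sum_le_sum_abs _ _).trans ?_
  have h1 : ∀ h ∈ range (N + 1), |(-1) ^ h * (arr (K + 1) N (ee N t) K j h : ℝ)| ≤
      (2 ^ N * ((N + 1) * (K + 1 : ℕ))) ^ K * 2 ^ N := by
    intro h _
    rw [abs_mul, abs_pow, abs_neg, abs_one, one_pow, one_mul]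
    exact arr_bound (by omega) (ee_le N t) K j h
  refine (sum_le_sum h1).trans ?_
  rw [sum_const, card_range, nsmul_eq_mul]
  push_cast
  exact le_rfl

theorem ev_pi (j : ℕ) : ev j Real.pi = I ^ j * (Real.pi : ℂ) ^ j / (j ! : ℂ) := by
  rw [ev, mul_pow]

theorem ex_pi (h : ℕ) : ex h Real.pi = (-1) ^ h := by
  rw [ex, show I * ((h : ℝ) : ℂ) * (Real.pi : ℂ) = (h : ℕ) * (Real.pi * I) by push_cast; ring,
    Complex.exp_nat_mul, Complex.exp_pi_mul_I]

theorem Ev_pi (K N t : ℕ) : Ev (K + 1) N (arr (K + 1) N (ee N t) K) Real.pi =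
    ∑ j ∈ range (K + 1), (vm K N t j : ℂ) * (I ^ j * (Real.pi : ℂ) ^ j / (j ! : ℂ)) := by
  rw [Ev]
  have h1 : ∀ h ∈ range (N + 1), (∑ j ∈ range (K + 1), (arr (K + 1) N (ee N t) K j h : ℂ) *
      ev j Real.pi) * ex h Real.pi =
      ∑ j ∈ range (K + 1), ((-1) ^ h * (arr (K + 1) N (ee N t) K j h : ℂ)) *
        (I ^ j * (Real.pi : ℂ) ^ j / (j ! : ℂ)) := by
    intro h _
    rw [ex_pi, sum_mul]
    apply sum_congr rfl
    intro j _
    rw [ev_pi]
    ring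
  rw [sum_congr rfl h1, sum_comm]
  apply sum_congr rfl
  intro j _
  rw [← sum_mul, vm]
  push_cast
  rfl

/-- **Core estimate.** -/
theorem core {K N d : ℕ} (hN : 1 ≤ N) (hd1 : 1 ≤ d) (hd : ∀ i : ℕ, 1 ≤ i → i ≤ N → i ∣ d)
    (X ρ : ℝ) (hρ : 0 ≤ ρ) (b : ℕ → ℤ) (hb0 : ∃ j ≤ K, b j ≠ 0)
    (hb : ∀ j ≤ K, |(b j : ℝ) - X * Real.pi ^ j| ≤ ρ) :
    1 ≤ (d : ℝ) ^ K * (K ! : ℝ) * (|X| * (Real.pi ^ K * 2 ^ (K + 1) *
      (Real.pi / (K + 1 : ℕ)) ^ ((K + 1) * (N - 1))) +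
      ρ * ((K + 1 : ℕ) * ((N + 1) * ((2 ^ N * ((N + 1) * (K + 1 : ℕ))) ^ K * 2 ^ N)))) := by
  -- a nonvanishing form
  set M : Matrix (Fin (K + 1)) (Fin (K + 1)) ℚ := Matrix.of fun t j => vm K N t j with hM
  have hMdet : (M.map (Rat.cast : ℚ → ℂ)).det ≠ 0 := by
    have h1 := (RingHom.map_det (Rat.castHom ℂ) M).symm
    have h2 : (M.map (Rat.cast : ℚ → ℂ)).det = ((M.det : ℚ) : ℂ) := by simpa using h1
    rw [h2]
    exact_mod_cast vm_det hN
  have hfac : ∀ j : ℕ, ((j ! : ℕ) : ℂ) ≠ 0 := fun j => by exact_mod_cast (Nat.factorial_pos j).ne'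
  set w : Fin (K + 1) → ℂ := fun j => I ^ (j : ℕ) * (b j : ℂ) / ((j : ℕ)! : ℂ) with hw
  have hw0 : w ≠ 0 := by
    obtain ⟨j, hj, hbj⟩ := hb0
    intro h0
    have h1 := congrFun h0 ⟨j, Nat.lt_succ_of_le hj⟩
    simp only [hw, Pi.zero_apply] at h1
    rw [div_eq_zero_iff, mul_eq_zero] at h1
    rcases h1 with (h1 | h1) | h1
    · exact absurd h1 (pow_ne_zero _ Complex.I_ne_zero)
    · exact hbj (by exact_mod_cast h1)
    · exact hfac _ h1
  have hMw : (M.map (Rat.cast : ℚ → ℂ)).mulVec w ≠ 0 := by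
    intro h0
    exact hMdet (Matrix.exists_mulVec_eq_zero_iff.mp ⟨w, hw0, h0⟩)
  obtain ⟨t, ht⟩ : ∃ t, (M.map (Rat.cast : ℚ → ℂ)).mulVec w t ≠ 0 := by
    by_contra hcon
    push Not at hcon
    exact hMw (funext hcon)
  have hform : (M.map (Rat.cast : ℚ → ℂ)).mulVec w t =
      ∑ j ∈ range (K + 1), (vm K N t j : ℂ) * (I ^ j * (b j : ℂ) / (j ! : ℂ)) := by
    rw [Matrix.mulVec, dotProduct, ← Fin.sum_univ_eq_sum_range (fun j => (vm K N t j : ℂ) *
      (I ^ j * (b j : ℂ) / (j ! : ℂ))) (K + 1)]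
    rfl
  rw [hform] at ht
  -- integrality
  have hint : ∃ z : ℕ → ℤ, ∀ j ≤ K, (d : ℚ) ^ K * vm K N t j * ((K ! : ℚ) / j !) = z j := by
    choose! z hz using fun j (hj : j ≤ K) => vm_int (N := N) hd t j hj
    exact ⟨z, hz⟩
  obtain ⟨z, hz⟩ := hint
  have hdC : (d : ℂ) ≠ 0 := by exact_mod_cast (by omega : d ≠ 0)
  have hL : (d : ℂ) ^ K * (K ! : ℂ) * ∑ j ∈ range (K + 1), (vm K N t j : ℂ) *
      (I ^ j * (b j : ℂ) / (j ! : ℂ)) = ∑ j ∈ range (K + 1), ((z j * b j : ℤ) : ℂ) * I ^ j := by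
    rw [mul_sum]
    apply sum_congr rfl
    intro j hj
    have h1 := hz j (Nat.lt_succ_iff.mp (mem_range.mp hj))
    have h2 : (d : ℂ) ^ K * (vm K N t j : ℂ) * ((K ! : ℂ) / j !) = (z j : ℂ) := by
      have h3 := congrArg (Rat.cast : ℚ → ℂ) h1
      push_cast at h3
      exact h3
    push_cast
    rw [← h2]
    ring
  have hLne : (d : ℂ) ^ K * (K ! : ℂ) * ∑ j ∈ range (K + 1), (vm K N t j : ℂ) *
      (I ^ j * (b j : ℂ) / (j ! : ℂ)) ≠ 0 :=
    mul_ne_zero (mul_ne_zero (pow_ne_zero _ hdC) (hfac K)) ht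
  have h1L : 1 ≤ ‖(d : ℂ) ^ K * (K ! : ℂ) * ∑ j ∈ range (K + 1), (vm K N t j : ℂ) *
      (I ^ j * (b j : ℂ) / (j ! : ℂ))‖ := by
    rw [hL] at hLne ⊢
    exact one_le_norm_gaussian (fun j => z j * b j) hLne
  refine h1L.trans ?_
  rw [norm_mul, norm_mul, norm_pow, Complex.norm_natCast, Complex.norm_natCast]
  apply mul_le_mul_of_nonneg_left _ (by positivity)
  -- the upper bound
  have hsplit : ∑ j ∈ range (K + 1), (vm K N t j : ℂ) * (I ^ j * (b j : ℂ) / (j ! : ℂ)) =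
      (X : ℂ) * Ev (K + 1) N (arr (K + 1) N (ee N t) K) Real.pi +
      ∑ j ∈ range (K + 1), (vm K N t j : ℂ) * (I ^ j * ((b j - X * Real.pi ^ j : ℝ) : ℂ) / (j ! : ℂ)) := by
    rw [Ev_pi, mul_sum, ← sum_add_distrib]
    apply sum_congr rfl
    intro j _
    push_cast
    ring
  rw [hsplit]
  refine (norm_add_le _ _).trans ?_
  apply add_le_add
  · rw [norm_mul, Complex.norm_real, Real.norm_eq_abs]
    apply mul_le_mul_of_nonneg_left _ (abs_nonneg _)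
    have := arr_Ev (S := K + 1) (ee_cases N t) hN K le_rfl Real.pi Real.pi_pos.le
    exact this
  · refine (norm_sum_le _ _).trans ?_
    have h2 : ∀ j ∈ range (K + 1),
        ‖(vm K N t j : ℂ) * (I ^ j * ((b j - X * Real.pi ^ j : ℝ) : ℂ) / (j ! : ℂ))‖ ≤
        ρ * ((N + 1) * ((2 ^ N * ((N + 1) * (K + 1 : ℕ))) ^ K * 2 ^ N)) := by
      intro j hj
      have hjK := Nat.lt_succ_iff.mp (mem_range.mp hj)
      rw [norm_mul, norm_div, norm_mul, norm_pow, Complex.norm_I, one_pow, one_mul,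
        Complex.norm_real, Complex.norm_natCast, Real.norm_eq_abs]
      have h3 : ‖(vm K N t j : ℂ)‖ ≤ (N + 1) * ((2 ^ N * ((N + 1) * (K + 1 : ℕ))) ^ K * 2 ^ N) := by
        have h4 := vm_abs (K := K) (N := N) t j
        have h5 : ‖(vm K N t j : ℂ)‖ = |(vm K N t j : ℝ)| := by
          rw [← Real.norm_eq_abs, ← Complex.norm_real, Complex.ofReal_ratCast]
        rw [h5]
        exact h4
      have h6 : |(b j : ℝ) - X * Real.pi ^ j| / (j ! : ℝ) ≤ ρ := by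
        have h7 : (1 : ℝ) ≤ (j ! : ℝ) := by exact_mod_cast Nat.one_le_iff_ne_zero.mpr (Nat.factorial_ne_zero j)
        exact (div_le_self (abs_nonneg _) h7).trans (hb j hjK)
      rw [mul_comm]
      exact mul_le_mul h6 h3 (norm_nonneg _) hρ
    refine (sum_le_sum h2).trans (le_of_eq ?_)
    rw [sum_const, card_range, nsmul_eq_mul]
    ring

end Pool.Agent.Helper66.PI
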