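import Mathlib
import Pool.Agent.Helper66.PI.Core

/-!
The choice of the parameters.
-/

namespace Pool.Agent.Helper66.PI

open Finset Polynomial
open scoped Nat

theorem dvd_lcmUpto {N i : ℕ} (h1 : 1 ≤ i) (h2 : i ≤ N) : i ∣ Nat.lcmUpto N := by
  rw [Nat.lcmUpto]
  exact Finset.dvd_lcm (f := id) (by simp [h1, h2])

theorem lcmUpto_le (N : ℕ) : (Nat.lcmUpto N : ℝ) ≤ Real.exp (6 * N) := by
  have h1 : (0 : ℝ) < (Nat.lcmUpto N : ℝ) := by exact_mod_cast Nat.lcmUpto_pos N
  rw [← Real.log_le_iff_le_exp h1, ← Chebyshev.psi_eq_log_lcmUpto]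
  refine (Chebyshev.psi_le_const_mul_self (Nat.cast_nonneg N)).trans ?_
  apply mul_le_mul_of_nonneg_right _ (Nat.cast_nonneg N)
  have h2 : Real.log 4 = 2 * Real.log 2 := by
    rw [show (4 : ℝ) = 2 ^ 2 by norm_num, Real.log_pow]
    norm_num
  have := Real.log_two_lt_d9
  linarith

theorem two_le_exp_one : (2 : ℝ) ≤ Real.exp 1 := by
  have := Real.add_one_le_exp (1 : ℝ)
  linarith

theorem natCast_succ_le_exp (n : ℕ) : ((n : ℝ) + 1) ≤ Real.exp n := Real.add_one_le_exp (n : ℝ)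

theorem natCast_le_exp (n : ℕ) : (n : ℝ) ≤ Real.exp n := by
  linarith [natCast_succ_le_exp n]

theorem pi_le_exp_two : Real.pi ≤ Real.exp 2 := by
  have h1 := Real.pi_le_four
  have h2 : Real.exp 2 = Real.exp 1 * Real.exp 1 := by rw [← Real.exp_add]; norm_num
  have h3 := two_le_exp_one
  nlinarith

theorem param {K n : ℕ} {L X ρ : ℝ} (hL : 160 ≤ L) (hKL : Real.exp (L / 2) ≤ (K + 1 : ℕ))
    (hKL' : ((K + 1 : ℕ) : ℝ) ≤ Real.exp L)
    (hn1 : 1 ≤ n) (hn : ((K + 1 : ℕ) : ℝ) * L ^ 2 ≤ n) (hX : |X| ≤ Real.exp (4 * n)) (hρ0 : 0 ≤ ρ)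
    (hρ : ρ ≤ Real.exp (-(301 * (n / L)))) (b : ℕ → ℤ) (hb0 : ∃ j ≤ K, b j ≠ 0)
    (hb : ∀ j ≤ K, |(b j : ℝ) - X * Real.pi ^ j| ≤ ρ) : False := by
  have hLpos : 0 < L := by linarith
  set k1 : ℝ := ((K + 1 : ℕ) : ℝ) with hk1
  have hk1pos : 1 ≤ k1 := by rw [hk1]; exact_mod_cast Nat.succ_le_succ (Nat.zero_le K)
  have hk1K : k1 = (K : ℝ) + 1 := by rw [hk1]; push_cast; ring
  set y : ℝ := (n : ℝ) / L with hy
  have hyL : y * L = n := by rw [hy]; field_simp
  have hky : k1 * L ≤ y := by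
    rw [hy, le_div_iff₀ hLpos]
    calc k1 * L * L = k1 * L ^ 2 := by ring
      _ ≤ n := hn
  have hk1L : L ≤ k1 * L := le_mul_of_one_le_left hLpos.le hk1pos
  have hk1k1 : k1 ≤ k1 * L := le_mul_of_one_le_right (by linarith) (by linarith)
  have hy1 : 1 ≤ y := by linarith
  set N : ℕ := 1 + ⌈24 * y / k1⌉₊ with hN
  have hN1 : 1 ≤ N := Nat.le_add_right _ _
  have hNK : 24 * y / k1 ≤ ((N - 1 : ℕ) : ℝ) := by
    rw [hN, Nat.add_sub_cancel_left]
    exact Nat.le_ceil _
  have hNK' : 24 * y ≤ k1 * ((N - 1 : ℕ) : ℝ) := by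
    rw [div_le_iff₀ (by linarith)] at hNK
    linarith
  have hNup : (N : ℝ) ≤ 2 + 24 * y / k1 := by
    have h1 : ((⌈24 * y / k1⌉₊ : ℕ) : ℝ) < 24 * y / k1 + 1 :=
      Nat.ceil_lt_add_one (by positivity)
    rw [hN]
    push_cast
    linarith
  have hkN : k1 * N ≤ 26 * y := by
    calc k1 * N ≤ k1 * (2 + 24 * y / k1) := mul_le_mul_of_nonneg_left hNup (by linarith)
      _ = 2 * k1 + 24 * y := by field_simp
      _ ≤ 26 * y := by linarith
  have hcore := core hN1 (Nat.succ_le_of_lt (Nat.lcmUpto_pos N))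
    (fun i h1 h2 => dvd_lcmUpto h1 h2) X ρ hρ0 b hb0 hb
  -- elementary bounds
  have hKk : (K : ℝ) ≤ k1 := by rw [hk1K]; linarith
  have hK0 : (0 : ℝ) ≤ K := Nat.cast_nonneg K
  have hN0 : (0 : ℝ) ≤ N := Nat.cast_nonneg N
  have e1 : (Nat.lcmUpto N : ℝ) ^ K ≤ Real.exp (6 * N * K) := by
    calc (Nat.lcmUpto N : ℝ) ^ K ≤ (Real.exp (6 * N)) ^ K :=
          pow_le_pow_left₀ (by positivity) (lcmUpto_le N) _
      _ = Real.exp (6 * N * K) := by rw [← Real.exp_nat_mul]; congr 1; ring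
  have e2 : (K ! : ℝ) ≤ Real.exp (K * L) := by
    have h1 : (K ! : ℝ) ≤ (K : ℝ) ^ K := by exact_mod_cast Nat.factorial_le_pow K
    refine h1.trans ?_
    calc (K : ℝ) ^ K ≤ (Real.exp L) ^ K := pow_le_pow_left₀ hK0 (hKk.trans hKL') _
      _ = Real.exp (K * L) := by rw [← Real.exp_nat_mul]
  have e3 : Real.pi ^ K ≤ Real.exp (2 * K) := by
    calc Real.pi ^ K ≤ (Real.exp 2) ^ K := pow_le_pow_left₀ Real.pi_pos.le pi_le_exp_two _
      _ = Real.exp (2 * K) := by rw [← Real.exp_nat_mul]; congr 1; ring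
  have e4 : (2 : ℝ) ^ (K + 1) ≤ Real.exp k1 := by
    calc (2 : ℝ) ^ (K + 1) ≤ (Real.exp 1) ^ (K + 1) :=
          pow_le_pow_left₀ (by norm_num) two_le_exp_one _
      _ = Real.exp k1 := by
          rw [← Real.exp_nat_mul, hk1]; congr 1; ring
  have e5 : (Real.pi / (K + 1 : ℕ)) ^ ((K + 1) * (N - 1)) ≤ Real.exp (-(6 * n)) := by
    have h1 : Real.pi / (K + 1 : ℕ) ≤ Real.exp (-(L / 4)) := by
      rw [div_le_iff₀ (by rw [← hk1]; linarith)]
      calc Real.pi ≤ Real.exp 2 := pi_le_exp_two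
        _ ≤ Real.exp (-(L / 4)) * Real.exp (L / 2) := by
            rw [← Real.exp_add]
            apply Real.exp_le_exp.mpr
            linarith
        _ ≤ Real.exp (-(L / 4)) * (K + 1 : ℕ) :=
            mul_le_mul_of_nonneg_left hKL (Real.exp_pos _).le
    calc (Real.pi / (K + 1 : ℕ)) ^ ((K + 1) * (N - 1)) ≤
          (Real.exp (-(L / 4))) ^ ((K + 1) * (N - 1)) :=
          pow_le_pow_left₀ (div_nonneg Real.pi_pos.le (Nat.cast_nonneg _)) h1 _
      _ = Real.exp (-((k1 * ((N - 1 : ℕ) : ℝ)) * (L / 4))) := by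
          rw [← Real.exp_nat_mul, hk1]; congr 1; push_cast; ring
      _ ≤ Real.exp (-(6 * n)) := by
          apply Real.exp_le_exp.mpr
          have h2 : 24 * y * (L / 4) ≤ (k1 * ((N - 1 : ℕ) : ℝ)) * (L / 4) :=
            mul_le_mul_of_nonneg_right hNK' (by linarith)
          have h3 : 24 * y * (L / 4) = 6 * n := by rw [← hyL]; ring
          linarith
  have hKLy : (K : ℝ) * L ≤ y := (mul_le_mul_of_nonneg_right hKk hLpos.le).trans hky
  have hK1 : (K : ℝ) ≤ y := by linarith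
  have hNK2 : (N : ℝ) * K ≤ 26 * y := by
    calc (N : ℝ) * K ≤ N * k1 := mul_le_mul_of_nonneg_left hKk hN0
      _ = k1 * N := by ring
      _ ≤ 26 * y := hkN
  have hN2 : (N : ℝ) ≤ 26 * y := (le_mul_of_one_le_left hN0 hk1pos).trans hkN
  have hpart1 : (Nat.lcmUpto N : ℝ) ^ K * (K ! : ℝ) * (|X| * (Real.pi ^ K * 2 ^ (K + 1) *
      (Real.pi / (K + 1 : ℕ)) ^ ((K + 1) * (N - 1)))) ≤ Real.exp (-1) := by
    calc _ ≤ Real.exp (6 * N * K) * Real.exp (K * L) * (Real.exp (4 * n) *
        (Real.exp (2 * K) * Real.exp k1 * Real.exp (-(6 * n)))) := by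
          apply mul_le_mul
          · exact mul_le_mul e1 e2 (by positivity) (by positivity)
          · apply mul_le_mul hX _ (by positivity) (by positivity)
            apply mul_le_mul _ e5 (by positivity) (by positivity)
            exact mul_le_mul e3 e4 (by positivity) (by positivity)
          · positivity
          · positivity
      _ = Real.exp (6 * N * K + K * L + (4 * n + (2 * K + k1 + -(6 * n)))) := by
          simp only [← Real.exp_add]
      _ ≤ Real.exp (-1) := by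
          apply Real.exp_le_exp.mpr
          have hn1' : (1 : ℝ) ≤ n := by exact_mod_cast hn1
          have h2 : 160 * y ≤ n := by
            rw [← hyL]
            have := mul_le_mul_of_nonneg_left hL (by linarith : (0 : ℝ) ≤ y)
            linarith
          have h3 : 6 * (N : ℝ) * K = 6 * ((N : ℝ) * K) := by ring
          rw [h3]
          linarith
  have hpart2 : (Nat.lcmUpto N : ℝ) ^ K * (K ! : ℝ) *
      (ρ * ((K + 1 : ℕ) * ((N + 1) * ((2 ^ N * ((N + 1) * (K + 1 : ℕ))) ^ K * 2 ^ N)))) ≤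
      Real.exp (-1) := by
    have f2 : ((N : ℝ) + 1) ≤ Real.exp N := natCast_succ_le_exp N
    have f3 : (2 : ℝ) ^ N ≤ Real.exp N := by
      calc (2 : ℝ) ^ N ≤ (Real.exp 1) ^ N := pow_le_pow_left₀ (by norm_num) two_le_exp_one _
        _ = Real.exp N := by rw [← Real.exp_nat_mul]; congr 1; ring
    have f4 : (2 ^ N * ((N + 1) * ((K + 1 : ℕ) : ℝ))) ^ K ≤ Real.exp (2 * N * K + K * L) := by
      calc (2 ^ N * ((N + 1) * ((K + 1 : ℕ) : ℝ))) ^ K ≤ (Real.exp N * (Real.exp N * Real.exp L)) ^ K := by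
            apply pow_le_pow_left₀ (by positivity)
            exact mul_le_mul f3 (mul_le_mul f2 hKL' (by positivity) (by positivity)) (by positivity)
              (by positivity)
        _ = Real.exp (2 * N * K + K * L) := by
            rw [← Real.exp_add, ← Real.exp_add, ← Real.exp_nat_mul]; congr 1; ring
    calc _ ≤ Real.exp (6 * N * K) * Real.exp (K * L) * (Real.exp (-(301 * y)) *
        (Real.exp L * (Real.exp N * (Real.exp (2 * N * K + K * L) * Real.exp N)))) := by
          apply mul_le_mul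
          · exact mul_le_mul e1 e2 (by positivity) (by positivity)
          · apply mul_le_mul hρ _ (by positivity) (by positivity)
            apply mul_le_mul hKL' _ (by positivity) (by positivity)
            apply mul_le_mul f2 _ (by positivity) (by positivity)
            exact mul_le_mul f4 f3 (by positivity) (by positivity)
          · positivity
          · positivity
      _ = Real.exp (6 * N * K + K * L + (-(301 * y) + (L + (N + (2 * N * K + K * L + N))))) := by
          simp only [← Real.exp_add]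
      _ ≤ Real.exp (-1) := by
          apply Real.exp_le_exp.mpr
          have h3 : 6 * (N : ℝ) * K = 6 * ((N : ℝ) * K) := by ring
          have h4 : 2 * (N : ℝ) * K = 2 * ((N : ℝ) * K) := by ring
          rw [h3, h4]
          linarith
  have hexp : Real.exp (-1) < 1 / 2 := by
    rw [Real.exp_neg, inv_eq_one_div]
    apply one_div_lt_one_div_of_lt (by norm_num)
    have := Real.exp_one_gt_d9
    linarith
  rw [mul_add] at hcore
  linarith

end Pool.Agent.Helper66.PI
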